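import Pool.Agent.helper37.MA.Spec

/-!
# Project MA (MP_7e34bc_co, Q2), row AAA (helper67)
-/

set_option autoImplicit false

namespace Pool.Agent.helper37.MA

open Finset Pool.Agent.NK Pool.Agent.helper37.NF

private theorem AAA_card (n : ℕ) (x : Fin n → ℝ) (hx : ∀ i, x i ≠ 0) :
    Fintype.card {i // 0 < x i} + Fintype.card {i // x i < 0} = n := by
  classical
  have h1 := Fintype.card_subtype_compl (fun i : Fin n => 0 < x i)
  have h2 : Fintype.card {i : Fin n // x i < 0} = Fintype.card {i : Fin n // ¬ 0 < x i} := by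
    refine Fintype.card_congr (Equiv.subtypeEquivRight fun i => ?_)
    constructor
    · exact fun h => not_lt.2 h.le
    · exact fun h => lt_of_le_of_ne (not_lt.1 h) (hx i)
  have h3 := Fintype.card_subtype_le (fun i : Fin n => 0 < x i)
  rw [Fintype.card_fin] at h1 h3
  rw [h2]
  omega

theorem AAA (h1 : PEP_stmt) (h2 : CHS_stmt) (h3 : GEO_stmt) (h4 : TAI_stmt) (h5 : RAT_stmt) :
    AAA_stmt := by
  intro ε hε
  refine ⟨max 4 ⌈72 / ε ^ 2⌉₊, 60, ?_⟩
  intro n k x hn hk3 hkε hx ha hb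
  set p0 : ℕ := max 4 ⌈72 / ε ^ 2⌉₊ with hp0
  have hp4 : 4 ≤ p0 := le_max_left _ _
  have hp72 : 72 / ε ^ 2 ≤ (p0 : ℝ) :=
    (Nat.le_ceil _).trans (Nat.cast_le.2 (le_max_right 4 ⌈72 / ε ^ 2⌉₊))
  have hp0pos : (0 : ℝ) < (p0 : ℝ) := by
    have : (4 : ℝ) ≤ (p0 : ℝ) := by exact_mod_cast hp4
    linarith
  have hab := AAA_card n x hx
  set a := Fintype.card {i // 0 < x i} with hadef
  set b := Fintype.card {i // x i < 0} with hbdef
  have hn0 : (0 : ℝ) < (n : ℝ) := by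
    have : (60 : ℝ) ≤ (n : ℝ) := by exact_mod_cast hn
    linarith
  have h2k : 2 * k ≤ n := by
    have h : (k : ℝ) ≤ (1 / 2) * n := by nlinarith
    have h' : (2 * (k : ℝ)) ≤ (n : ℝ) := by linarith
    exact_mod_cast h'
  refine h1 n k (2 * (n - 2).choose (k - 1)) x hx ?_
  intro C hC hCh
  have e1 := h2 p0 a b k C hp4 ha hb (by omega) hC hCh
  rw [hab] at e1
  -- the two sums
  set S1 : ℝ := ((∑ t ∈ range (k + 1), n.choose t : ℕ) : ℝ) with hS1
  set S2 : ℝ := ((∑ t ∈ range (n / 4 + 1), n.choose t : ℕ) : ℝ) with hS2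
  have hS10 : 0 ≤ S1 := Nat.cast_nonneg _
  have hS20 : 0 ≤ S2 := Nat.cast_nonneg _
  set c : ℝ := (n.choose k : ℝ) with hc
  have hc0 : 0 ≤ c := Nat.cast_nonneg _
  -- GEO
  have g1 : 2 * ε * n * S1 ≤ n * c := by
    have g := h3 n k h2k
    have g' : (((n - 2 * k + 1) * ∑ t ∈ range (k + 1), n.choose t : ℕ) : ℝ) ≤
        (((n - k + 1) * n.choose k : ℕ) : ℝ) := by exact_mod_cast g
    rw [Nat.cast_mul, Nat.cast_mul] at g'
    have u1 : ((n - 2 * k + 1 : ℕ) : ℝ) = (n : ℝ) - 2 * k + 1 := by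
      rw [Nat.cast_add, Nat.cast_sub h2k]
      push_cast
      ring
    have u2 : ((n - k + 1 : ℕ) : ℝ) ≤ (n : ℝ) := by
      have : n - k + 1 ≤ n := by omega
      exact_mod_cast this
    rw [u1] at g'
    have v1 : 2 * ε * n ≤ (n : ℝ) - 2 * k + 1 := by nlinarith
    have v2 : 2 * ε * n * S1 ≤ ((n : ℝ) - 2 * k + 1) * S1 := mul_le_mul_of_nonneg_right v1 hS10
    have v3 : ((n - k + 1 : ℕ) : ℝ) * c ≤ n * c := mul_le_mul_of_nonneg_right u2 hc0
    exact v2.trans (g'.trans v3)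
  have g2 : 2 * ε * S1 ≤ c := by
    have : (n : ℝ) * (2 * ε * S1) ≤ n * c := by linarith
    exact le_of_mul_le_mul_left this hn0
  -- the square root
  have r1 : Real.sqrt (8 / (p0 : ℝ)) ≤ ε / 3 := by
    rw [Real.sqrt_le_left (by positivity)]
    rw [div_le_iff₀ hp0pos]
    have h72 : 72 ≤ (p0 : ℝ) * ε ^ 2 := (div_le_iff₀ (by positivity)).1 hp72
    nlinarith
  have r2 : Real.sqrt (8 / (p0 : ℝ)) * S1 ≤ c / 6 := by
    have w1 : Real.sqrt (8 / (p0 : ℝ)) * S1 ≤ ε / 3 * S1 := mul_le_mul_of_nonneg_right r1 hS10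
    linarith
  -- TAI
  have t1 : S2 ≤ c / 16 := by
    have t := h4 n k hk3 h2k
    have hpow : 2 ^ 5 ≤ 2 ^ (n / 3 - n / 4) := Nat.pow_le_pow_right (by norm_num) (by omega)
    have t' : 2 ^ 5 * ∑ t ∈ range (n / 4 + 1), n.choose t ≤ 2 * n.choose k :=
      (Nat.mul_le_mul_right _ hpow).trans t
    have t'' : (((2 ^ 5 * ∑ t ∈ range (n / 4 + 1), n.choose t : ℕ)) : ℝ) ≤
        ((2 * n.choose k : ℕ) : ℝ) := by exact_mod_cast t'
    rw [Nat.cast_mul, Nat.cast_mul] at t''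
    have t3 : (32 : ℝ) * S2 ≤ 2 * c := by
      have e : ((2 ^ 5 : ℕ) : ℝ) = 32 := by norm_num
      rw [e, Nat.cast_two] at t''
      exact t''
    linarith
  -- RAT
  have q1 := h5 n k hk3 h2k (by omega)
  have q2 : c ≤ 6 * ((n - 2).choose (k - 1) : ℝ) := by
    have h := (Nat.cast_le (α := ℝ)).2 q1
    rw [Nat.cast_mul] at h
    have e : ((6 : ℕ) : ℝ) = 6 := by norm_num
    rw [e] at h
    exact h
  have fin : ((∑ c ∈ C, a.choose c.1 * b.choose c.2 : ℕ) : ℝ) ≤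
      ((2 * (n - 2).choose (k - 1) : ℕ) : ℝ) := by
    rw [Nat.cast_mul, Nat.cast_two]
    linarith
  exact_mod_cast fin

end Pool.Agent.helper37.MA
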